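import Pool.Agent.Helper86.SJ.Defs

/-! MP_66bcf1_co: signed Johnson and Kneser graphs, `t = -(2d+2)`, all `k`, `n` large. -/

open Finset

namespace SG

open SJ (supp IsV dot fib)

/-- the volume of a ball -/
def BB (m d : ℕ) : ℕ := ∑ i ∈ range (d + 1), m.choose i

/-- independent in `J_±(n,k,-(2d+2))` -/
def IndJ (n k d : ℕ) (F : Finset (Fin n → ℤ)) : Prop :=
  (∀ v ∈ F, IsV n k v) ∧ ∀ u ∈ F, ∀ v ∈ F, u ≠ v → dot u v ≠ -(2 * (d : ℤ) + 2)

/-- independent in `K_±(n,k,-(2d+2))` -/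
def IndK (n k d : ℕ) (F : Finset (Fin n → ℤ)) : Prop :=
  (∀ v ∈ F, IsV n k v) ∧ ∀ u ∈ F, ∀ v ∈ F, u ≠ v → ¬ dot u v ≤ -(2 * (d : ℤ) + 2)

/-- the goal -/
def GOALStm : Prop := ∀ k d : ℕ, 2 * d + 3 ≤ k → ∃ n₀ : ℕ, ∀ n : ℕ, n₀ ≤ n → ∀ F, IndJ n k d F →
  ∃ F', IndK n k d F' ∧ #F ≤ #F'

/-- `v` and some member of `F` are opposite on `A ⊆ supp v` -/
def Clash {n : ℕ} (F : Finset (Fin n → ℤ)) (v : Fin n → ℤ) (A : Finset (Fin n)) : Prop :=
  A ⊆ supp v ∧ ∃ w ∈ F, ∀ x ∈ A, w x = - v x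

open Classical in
/-- supports of members which clash at some `(2d+2)`-set -/
noncomputable def HH {n : ℕ} (k d : ℕ) (F : Finset (Fin n → ℤ)) : Finset (Finset (Fin n)) :=
  (powersetCard k univ).filter
    (fun S => ∃ v ∈ F, supp v = S ∧ ∃ A : Finset (Fin n), #A = 2 * d + 2 ∧ Clash F v A)

open Classical in
/-- supports of few members -/
noncomputable def LL {n : ℕ} (k d : ℕ) (F : Finset (Fin n → ℤ)) : Finset (Finset (Fin n)) :=
  (powersetCard k univ).filter (fun S => #(fib F S) < 2 * BB (k - 1) d)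

open Classical in
/-- the exceptional supports -/
noncomputable def EX {n : ℕ} (k d : ℕ) (F : Finset (Fin n → ℤ)) : Finset (Finset (Fin n)) :=
  HH k d F ∪ LL k d F

/-- the fibre over `S` is a ball around `c` with the free coordinate `f` -/
def Str {n : ℕ} (k d : ℕ) (F : Finset (Fin n → ℤ)) (S : Finset (Fin n)) (f : Fin n)
    (c : Fin n → ℤ) : Prop :=
  f ∈ S ∧ (∀ i, c i = 1 ∨ c i = -1) ∧ ∀ v : Fin n → ℤ, IsV n k v → supp v = S →
    (v ∈ F ↔ #((S.erase f).filter (fun i => v i ≠ c i)) ≤ d)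

/-- package FIB: Kleitman's theorem for one support.  From `Helper87.SG.KL3Stm` with
`ι = {x // x ∈ S}`, the set of a vector = its positive coordinates; prove `KL3Stm → FIBStm`. -/
def FIBStm : Prop := ∀ (n k d : ℕ) (F : Finset (Fin n → ℤ)), 2 * d + 3 ≤ k →
  (∀ v ∈ F, IsV n k v) → ∀ S : Finset (Fin n), #S = k →
  (∀ u ∈ F, ∀ v ∈ F, supp u = S → supp v = S → #(S.filter (fun i => u i ≠ v i)) ≤ 2 * d + 1) →
  #(fib F S) ≤ 2 * BB (k - 1) d ∧
    (2 * BB (k - 1) d ≤ #(fib F S) → ∃ f c, Str k d F S f c)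

/-- package SRC (from FIB: if `u`, `v` over `S` differ at `2d+2` places, `u` clashes there) -/
def SRCStm : Prop := ∀ (n k d : ℕ) (F : Finset (Fin n → ℤ)), 2 * d + 3 ≤ k →
  (∀ v ∈ F, IsV n k v) → ∀ S : Finset (Fin n), #S = k →
    (S ∉ HH k d F → #(fib F S) ≤ 2 * BB (k - 1) d) ∧
    (S ∉ EX k d F → ∃ f c, Str k d F S f c)

/-- package SUM (from SRC; `#F = ∑ #fib`, `#fib ≤ 2^k`, and `#fib + 1 ≤ 2 BB` on `LL`) -/
def SUMStm : Prop := ∀ (n k d : ℕ) (F : Finset (Fin n → ℤ)), 2 * d + 3 ≤ k →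
  (∀ v ∈ F, IsV n k v) →
  #F + #(LL k d F) ≤ 2 * BB (k - 1) d * n.choose k + 2 ^ k * #(HH k d F)

open Classical in
/-- the vertices outside `A` where all members clashing at `A` vanish -/
noncomputable def DD {n : ℕ} (F : Finset (Fin n → ℤ)) (A : Finset (Fin n)) : Finset (Fin n) :=
  univ.filter (fun u => u ∉ A ∧ ∀ v ∈ F, Clash F v A → v u = 0)

open Classical in
/-- supports of members clashing at `A` -/
noncomputable def cP {n : ℕ} (F : Finset (Fin n → ℤ)) (A : Finset (Fin n)) :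
    Finset (Finset (Fin n)) := (F.filter (fun v => Clash F v A)).image supp

open Classical in
/-- exceptional supports containing `A` -/
noncomputable def exP {n : ℕ} (k d : ℕ) (F : Finset (Fin n → ℤ)) (A : Finset (Fin n)) :
    Finset (Finset (Fin n)) := (EX k d F).filter (fun S => A ⊆ S)

/-- package UP (independence).  Second bound: `supp v \ A` lies in the complement of `A ∪ DD`
(`μ` points).  First bound: `2^(2d+2)` patterns `β` on `A`; fix one `w ∈ F` with `w = -β` on `A`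
(`w` clashes, too, so `supp w \ A` lies in the complement of `A ∪ DD`); every `v ∈ F` with
`v = β` on `A` has `supp v \ A` meeting `supp w \ A`, for otherwise `dot v w = -(2d+2)`. -/
def UPStm : Prop := ∀ (n k d : ℕ) (F : Finset (Fin n → ℤ)), 2 * d + 3 ≤ k → IndJ n k d F →
  ∀ A : Finset (Fin n), #A = 2 * d + 2 → ∀ μ : ℕ, #(DD F A) + (2 * d + 2) + μ = n →
    #(cP F A) ≤ 2 ^ (2 * d + 2) *
      ((k - (2 * d + 2)) * (μ - 1).choose (k - (2 * d + 2) - 1)) ∧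
    #(cP F A) ≤ μ.choose (k - (2 * d + 2))

/-- package CLS.  `v = β`, `w = -β` on `A`.  If `f ∈ A`: `β` or `-β` has at most `d` disagreements
with `c` on `A.erase f`, so a member over `S` equals `β` or `-β` on `A` and clashes, `S ∈ HH`.
So `f ∉ A`, and in the same way `β` has exactly `d+1` disagreements with `c` on `A`, for every
clashing pattern `β` at `A`.  If a clashing member `u` (pattern `β`) has `u f ≠ 0`: take `y ∈ A` with
`β y = c y` and the member `w'` over `S` with `w' = -β` on `A.erase y`, `w' f = - u f`, `w' = c`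
elsewhere: it clashes with `u` at `insert f (A.erase y)`, so `S ∈ HH`. -/
def CLSStm : Prop := ∀ (n k d : ℕ) (F : Finset (Fin n → ℤ)), 2 * d + 3 ≤ k →
  (∀ v ∈ F, IsV n k v) → ∀ A : Finset (Fin n), #A = 2 * d + 2 → ∀ v ∈ F, Clash F v A →
  ∀ S : Finset (Fin n), #S = k → S ∉ HH k d F → A ⊆ S → ∀ f c, Str k d F S f c → f ∈ DD F A

/-- package LOW (from SRC, CLS): all `k`-sets `S ⊇ A` disjoint from `DD` are exceptional -/
def LOWStm : Prop := ∀ (n k d : ℕ) (F : Finset (Fin n → ℤ)), 2 * d + 3 ≤ k →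
  (∀ v ∈ F, IsV n k v) → ∀ A : Finset (Fin n), #A = 2 * d + 2 → ∀ v ∈ F, Clash F v A →
    ∃ μ : ℕ, #(DD F A) + (2 * d + 2) + μ = n ∧
      μ.choose (k - (2 * d + 2)) ≤ #(exP k d F A)

/-- package RUL.  Suppose `f ≠ f'` are both in `S ∩ S'`; take `A ⊆ S ∩ S'`, `#A = 2d+2`,
`f, f' ∈ A`.  There are members `v` over `S` and `v'` over `S'` with `v' = -v` on `A`
(so `S ∈ HH`): at `f` put `v' = c'`, `v = -c'`; at `f'` put `v = c`, `v' = -c`; at the other `2d`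
places with `c = -c'` put `v = c`; the (at most `2d`) places with `c = c'`: half of them `v = c`,
the other half `v = -c`.  Second part: if `f = f'` and `c y ≠ c' y`, take `A ∋ f, y`: now `f` is
free for both, and at most `2d` places of `A` have `c = c'`; the same. -/
def RULStm : Prop := ∀ (n k d : ℕ) (F : Finset (Fin n → ℤ)), 2 * d + 3 ≤ k →
  (∀ v ∈ F, IsV n k v) → ∀ S S' : Finset (Fin n), #S = k → #S' = k → S ∉ HH k d F →
  2 * d + 2 ≤ #(S ∩ S') → ∀ f f' c c', Str k d F S f c → Str k d F S' f' c' →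
    (f ∈ S' → f' ∈ S → f = f') ∧ (f = f' → ∀ y ∈ S ∩ S', y ≠ f → c y = c' y)

/-- package LIFT.  Induction on `#Y - k` for all `k ≥ 3`.  `#Y = k`: trivial.  `#Y > k`: for a
`(k+1)`-set `Z ⊆ Y` put `g y = f (Z.erase y) ≠ y`; for `y ≠ y'` in `Z`: `g y = y'` or `g y' = y` or
`g y = g y'`.  Claim: there is `v ∈ Z` with `g y = v` for all `y ∈ Z`, `y ≠ v` (if two different `y`
have the same value `v`, every `y' ≠ v` has the value `v`, otherwise `g y' = y` for both `y`;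
if `g` is injective, the pairs are covered by the `(y, g y)`: `k(k+1)/2 ≤ k+1`, no).  Put
`f' Z = v`; then `f'` satisfies the hypothesis with `k+1`; induction gives `v` for `f'`, and it
works for `f`, too. -/
def LIFTStm : Prop := ∀ (n k : ℕ), 3 ≤ k → ∀ (Y : Finset (Fin n)) (f : Finset (Fin n) → Fin n),
  k ≤ #Y → (∀ S, S ⊆ Y → #S = k → f S ∈ S) →
  (∀ S S', S ⊆ Y → S' ⊆ Y → #S = k → #S' = k → #(S ∩ S') + 1 = k → f S ∈ S' → f S' ∈ S →
    f S = f S') →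
  ∃ v ∈ Y, ∀ S, S ⊆ Y → #S = k → v ∈ S → f S = v

/-- package TOP (from LIFT).  LIFT for `Y = V` gives `v₁`.  `T` = all `x ∉ V` with `f S = x` for
all `k`-sets `S ∋ x` in `insert x V`.  For a `k`-set `S` meeting `V` use LIFT for `Y = V ∪ S` (all its
`k`-subsets meet `V`): `v*`.  If `v* ∈ V`, then `v* = v₁` (take a `k`-set in `V` containing both) and
`S` has no `t ∈ T` (take a `k`-set in `insert t V` containing `t`, `v*`); if `v* ∉ V`, then
`v* ∈ T ∩ S` and `f S = v*`. -/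
def TOPStm : Prop := ∀ (n k : ℕ), 3 ≤ k → ∀ (V : Finset (Fin n)) (f : Finset (Fin n) → Fin n),
  k ≤ #V → (∀ S, #S = k → ¬ Disjoint S V → f S ∈ S) →
  (∀ S S', #S = k → #S' = k → ¬ Disjoint S V → ¬ Disjoint S' V → #(S ∩ S') + 1 = k →
    f S ∈ S' → f S' ∈ S → f S = f S') →
  ∃ (T : Finset (Fin n)) (v₁ : Fin n), v₁ ∈ V ∧ Disjoint T V ∧
    (∀ S, #S = k → ¬ Disjoint S V → ¬ Disjoint S T → f S ∈ T) ∧
    (∀ S, #S = k → Disjoint S T → v₁ ∈ S → f S = v₁)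

/-- package UNION (from SRC, RUL, CLS, LIFT): otherwise all `k`-subsets of `Y` are nonexceptional,
`f S` from SRC; LIFT gives `v ∈ Y`; `v ∈ A ⊆ S ⊆ Y` with a clash at `A`, and `f S = v ∈ A`
contradicts CLS. -/
def UNIONStm : Prop := ∀ (n k d : ℕ) (F : Finset (Fin n → ℤ)), 2 * d + 3 ≤ k →
  (∀ v ∈ F, IsV n k v) → ∀ Y : Finset (Fin n), k ≤ #Y →
  (∀ x ∈ Y, ∃ A : Finset (Fin n), x ∈ A ∧ A ⊆ Y ∧ #A = 2 * d + 2 ∧ ∃ v ∈ F, Clash F v A) →
  ∃ S ∈ EX k d F, S ⊆ Y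

/-- the members of `𝒜` which contain `J` -/
def ab {n : ℕ} (𝒜 : Finset (Finset (Fin n))) (J : Finset (Fin n)) : Finset (Finset (Fin n)) :=
  𝒜.filter (fun A => J ⊆ A)

/-- package SPA.  `{g | E' ⊆ ⋃ g i}` is contained in the union over `σ : E' → Fin k` of
`{g | ∀ i, I ∪ σ⁻¹ i ⊆ g i}`, whose size is `∏ i, #(ab 𝒜 (I ∪ σ⁻¹ i))`, and
`#(ab 𝒜 (I ∪ K)) * L ^ #K ≤ L ^ r` for `K` disjoint from `I`. -/
def SPAStm : Prop := ∀ (n k s r L : ℕ) (𝒜 : Finset (Finset (Fin n))) (I E' : Finset (Fin n)),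
  (∀ A ∈ 𝒜, #A = s) → 1 ≤ L → #I + r = s →
  (∀ J : Finset (Fin n), #J ≤ s → #(ab 𝒜 J) ≤ L ^ (s - #J)) → Disjoint E' I →
  #((Fintype.piFinset (fun _ : Fin k => ab 𝒜 I)).filter (fun g => E' ⊆ univ.biUnion g)) *
    L ^ #E' ≤ k ^ #E' * L ^ (r * k)

/-- package SPB.  A tuple with a small union has `i ≠ j` with `g i \ I`, `g j \ I` not disjoint. -/
def SPBStm : Prop := ∀ (n k s r L : ℕ) (𝒜 : Finset (Finset (Fin n))) (I : Finset (Fin n)),
  (∀ A ∈ 𝒜, #A = s) → 1 ≤ k → 1 ≤ L → #I + r = s → 1 ≤ r →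
  (∀ J : Finset (Fin n), #J ≤ s → #(ab 𝒜 J) ≤ L ^ (s - #J)) →
  #(ab 𝒜 I) ^ k ≤
    #((Fintype.piFinset (fun _ : Fin k => ab 𝒜 I)).filter (fun g => k ≤ #(univ.biUnion g))) +
      k ^ 2 * r * L ^ (r - 1) * #(ab 𝒜 I) ^ (k - 1)

/-- package SPC (from SPA, SPB).  `L` = the least number with `#(ab 𝒜 J) ≤ L ^ (s - #J)` for all
`J`, `#J ≤ s`; `L > L₀` if `N₀ = L₀ ^ s`.  There is `I`, `#I < s`, with `#(ab 𝒜 I) > (L-1)^r`,
`r = s - #I`; `(L-1)^r ≥ L^r - r L^(r-1)`, so at least `(L^r / 2)^k / 2`, say, tuples in `ab 𝒜 I` have a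
union with `≥ k` points; each union contains some `E ∈ ℰ`; for some `J ⊆ I` at least the part `2^{-s}` of the
tuples has `E ∩ I = J`; by SPA (`E' = E \ I`, `#E' = k - #J`) the number of these `E` is at least
`L^(k - #J) / (2^(k+1+s) k^k) ≥ L * #(ab 𝒜 J) / (2^(k+1+s) k^k)`. -/
def SPCStm : Prop := ∀ s k ω : ℕ, 1 ≤ s → s < k → ∃ N₀ : ℕ, ∀ (n : ℕ)
  (𝒜 ℰ : Finset (Finset (Fin n))), (∀ A ∈ 𝒜, #A = s) → (∀ E ∈ ℰ, #E = k) →
  (∀ g : Fin k → Finset (Fin n), (∀ i, g i ∈ 𝒜) → k ≤ #(univ.biUnion g) →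
    ∃ E ∈ ℰ, E ⊆ univ.biUnion g) → N₀ < #𝒜 →
  ∃ J : Finset (Fin n), 0 < #(ab 𝒜 J) ∧ ω * #(ab 𝒜 J) ≤ #(ℰ.filter (fun E => J ⊆ E))

/-- package SPREAD (from SPC with `2^k ω`).  Strong induction on `#𝒜`, `ℰ` fixed:
`2^k ω #𝒜 ≤ 2^k ω N₀ + ∑_{E ∈ ℰ} #{J ⊆ E | 0 < #(ab 𝒜 J)}`: pass from `𝒜` to `𝒜 \ ab 𝒜 J`. -/
def SPREADStm : Prop := ∀ s k ω : ℕ, 1 ≤ s → s < k → ∃ N₀ : ℕ, ∀ (n : ℕ)
  (𝒜 ℰ : Finset (Finset (Fin n))), (∀ A ∈ 𝒜, #A = s) → (∀ E ∈ ℰ, #E = k) →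
  (∀ g : Fin k → Finset (Fin n), (∀ i, g i ∈ 𝒜) → k ≤ #(univ.biUnion g) →
    ∃ E ∈ ℰ, E ⊆ univ.biUnion g) →
  ω * #𝒜 ≤ ω * N₀ + #ℰ

/-- package BOUND (from SUM, UP, LOW, UNION, SPREAD).  `s = 2d+2`, `h = #HH`.  SUM: `#LL ≤ 2^k h`, so
`#EX ≤ (1+2^k) h`.  `𝒜` = all `s`-sets with a clash; `h ≤ ∑_{A ∈ 𝒜} #cP A`,
`∑_{A ∈ 𝒜} #exP A ≤ C(k,s) #EX`.  If `μ > M` then `#cP A ≤ 2^s (k-s)^2 C(μ,k-s) / μ
≤ #exP A / (2 C(k,s) (1+2^k))`; these `A` contribute at most `h/2`.  If `μ ≤ M`, then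
`#cP A ≤ C(M,k-s)`.  So `h/2 ≤ #𝒜 * C(M,k-s)`, and SPREAD (UNION) with `ω = 4 (1+2^k) C(M,k-s)`
gives `#𝒜 ≤ N₀ + #EX / ω`, hence `h/4 ≤ C(M,k-s) N₀`. -/
def BOUNDStm : Prop := ∀ k d : ℕ, 2 * d + 3 ≤ k → ∃ C : ℕ, ∀ n : ℕ, ∀ F, IndJ n k d F →
  2 * BB (k - 1) d * n.choose k ≤ #F → #(EX k d F) ≤ C

/-- package CENA (from RUL): one sign vector for all `S ∋ v₁` off `T`.  For `u ∉ T`, `u ≠ v₁`, the
value `c_S u` is the same for all `k`-sets `S ∋ v₁, u` off `T`: exchange the elements one by one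
(RUL, `#(S ∩ S') = k - 1 ≥ 2d+2`). -/
def CENAStm : Prop := ∀ (n k d : ℕ) (F : Finset (Fin n → ℤ)), 2 * d + 3 ≤ k →
  (∀ v ∈ F, IsV n k v) → ∀ (T : Finset (Fin n)) (v₁ : Fin n),
  (∀ S : Finset (Fin n), #S = k → Disjoint S T → v₁ ∈ S → S ∉ HH k d F ∧ ∃ c, Str k d F S v₁ c) →
  ∃ c : Fin n → ℤ, (∀ i, c i = 1 ∨ c i = -1) ∧
    ∀ S : Finset (Fin n), #S = k → Disjoint S T → v₁ ∈ S → Str k d F S v₁ c

/-- package CENB.  If `v₁ ∈ supp v` use Str.  Otherwise, if `v` has `≥ d+2` disagreements, take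
`A ⊆ supp v`, `#A = 2d+2`, with at least `d+2` disagreements, and `S' = A ∪ {v₁} ∪ W`,
`W ⊆ V \ supp v`: the member `w` over `S'` with `w = -v` on `A`, `w = c` elsewhere has
`dot v w = -(2d+2)`. -/
def CENBStm : Prop := ∀ (n k d : ℕ) (F : Finset (Fin n → ℤ)), 2 * d + 3 ≤ k → IndJ n k d F →
  ∀ (T V : Finset (Fin n)) (v₁ : Fin n), v₁ ∈ V → Disjoint T V → 2 * k ≤ #V →
  ∀ c : Fin n → ℤ, (∀ i, c i = 1 ∨ c i = -1) →
  (∀ S : Finset (Fin n), #S = k → Disjoint S T → v₁ ∈ S → Str k d F S v₁ c) →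
  ∀ v ∈ F, Disjoint (supp v) T → #((supp v).filter (fun i => v i ≠ c i)) ≤ d + 1

/-- package CENC (from FIB).  Let `v`, `v'` over `S` be opposite on `A ⊆ S`, `#A = 2d+2`.  If `A`
meets `T` put `B = A`; otherwise `B = insert t (A.erase a)`, `t ∈ S ∩ T`.  `S' = B ∪ W`,
`W ⊆ V \ S`, `#W = k - #B ≥ 1`; its free coordinate `f ∈ T ∩ S' = T ∩ B`, `B.erase f ⊆ A` has `2d+1`
points, where `-v` or `-v' = v` has at most `d` disagreements with `c_{S'}`; so some `w ∈ F` over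
`S'` is `-v` or `-v'` on `B`, and `dot = -(2d+2)`. -/
def CENCStm : Prop := ∀ (n k d : ℕ) (F : Finset (Fin n → ℤ)), 2 * d + 3 ≤ k → IndJ n k d F →
  ∀ (T V : Finset (Fin n)), Disjoint T V → 2 * k ≤ #V →
  (∀ S : Finset (Fin n), #S = k → ¬ Disjoint S V → ¬ Disjoint S T →
    ∃ f ∈ T, ∃ c, Str k d F S f c) →
  ∀ S : Finset (Fin n), #S = k → ¬ Disjoint S T → #(fib F S) ≤ 2 * BB (k - 1) d

/-- package CNT: the number of sign vectors on `S` with at most `d` disagreements off `P` -/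
def CNTStm : Prop := ∀ (n d : ℕ) (S P : Finset (Fin n)) (c : Fin n → ℤ),
  (∀ i, c i = 1 ∨ c i = -1) → P ⊆ S →
  ∃ G : Finset (Fin n → ℤ), (∀ v, v ∈ G ↔ IsV n #S v ∧ supp v = S ∧
    #((S \ P).filter (fun i => v i ≠ c i)) ≤ d) ∧ #G = 2 ^ #P * BB #(S \ P) d

open Classical in
/-- package CON (from CNT): the construction.  `F'` = for `S` meeting `T`: the vectors over `S` with at
most `d` disagreements with `c` off `min (S ∩ T)`; for `S` off `T`: at most `d` disagreements;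
and `F₁`.  Independence: the number of common coordinates where `u`, `v` differ is at most `2d+1`
(two members of `F₁`: at most `2d+2`, and `dot ≤ -(2d+2)` only if `dot = -(2d+2)`); if `u`, `v` meet
`T` and the minima are different, the smaller one is not in the other support. -/
def CONStm : Prop := ∀ (n k d : ℕ), 2 * d + 3 ≤ k → ∀ (T : Finset (Fin n)) (c : Fin n → ℤ),
  (∀ i, c i = 1 ∨ c i = -1) → ∀ F₁ : Finset (Fin n → ℤ), IndJ n k d F₁ →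
  (∀ v ∈ F₁, Disjoint (supp v) T ∧ #((supp v).filter (fun i => v i ≠ c i)) = d + 1) →
  ∃ F', IndK n k d F' ∧
    2 * BB (k - 1) d * #((powersetCard k (univ : Finset (Fin n))).filter
        (fun S => ¬ Disjoint S T)) +
      BB k d * #((powersetCard k (univ : Finset (Fin n))).filter (fun S => Disjoint S T)) +
      #F₁ ≤ #F'

/-- package ASM: everything together -/
def ASMStm : Prop := FIBStm → SRCStm → RULStm → BOUNDStm → TOPStm → CENAStm → CENBStm → CENCStm →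
  CNTStm → CONStm → GOALStm

end SG
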