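import Pool.Agent.Helper86.SG.Defs

set_option autoImplicit false

open Finset

namespace SG

open SJ (supp IsV dot fib)

lemma card_fibsum {n k : ℕ} (F : Finset (Fin n → ℤ)) (hF : ∀ v ∈ F, IsV n k v) :
    #F = ∑ S ∈ powersetCard k (univ : Finset (Fin n)), #(fib F S) := by
  classical
  have := card_eq_sum_card_fiberwise (s := F) (t := powersetCard k (univ : Finset (Fin n)))
    (f := supp) (fun v hv => by
      have h := (hF v hv).2
      simp only [Finset.mem_coe, mem_powersetCard]
      exact ⟨subset_univ _, h⟩)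
  rw [this]
  refine sum_congr rfl fun S _ => ?_
  unfold SJ.fib
  congr 1

theorem asm : ASMStm := by
  classical
  intro hFIB hSRC hRUL hBOUND hTOP hCENA hCENB hCENC hCNT hCON k d hk
  obtain ⟨C, hC⟩ := hBOUND k d hk
  refine ⟨2 * k + C * k, fun n hn F hF => ?_⟩
  have hkn : k ≤ n := by nlinarith [Nat.zero_le (C * k)]
  have : Nonempty (Fin n) := ⟨⟨0, by omega⟩⟩
  by_cases hbig : 2 * BB (k - 1) d * n.choose k ≤ #F
  · have hEX := hC n F hF hbig
    have hEXk : ∀ S ∈ EX k d F, #S = k := by
      intro S hS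
      unfold EX HH LL at hS
      rcases mem_union.1 hS with h | h
      · exact (mem_powersetCard.1 (mem_filter.1 h).1).2
      · exact (mem_powersetCard.1 (mem_filter.1 h).1).2
    obtain ⟨V, hV⟩ : ∃ V : Finset (Fin n), V = univ \ (EX k d F).biUnion id := ⟨_, rfl⟩
    have hVc : 2 * k ≤ #V := by
      have h1 : #((EX k d F).biUnion id) ≤ #(EX k d F) * k :=
        card_biUnion_le_card_mul _ _ _ (fun S hS => (hEXk S hS).le)
      have h2 : #V = n - #((EX k d F).biUnion id) := by
        rw [hV, card_sdiff_of_subset (subset_univ _), card_univ, Fintype.card_fin]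
      have h3 : #(EX k d F) * k ≤ C * k := Nat.mul_le_mul_right _ hEX
      omega
    have hVE : ∀ S : Finset (Fin n), ¬ Disjoint S V → S ∉ EX k d F := by
      intro S hS hSE
      apply hS
      rw [hV, Finset.disjoint_left]
      intro x hx hx'
      exact (mem_sdiff.1 hx').2 (mem_biUnion.2 ⟨S, hSE, hx⟩)
    have hEH : ∀ S : Finset (Fin n), S ∉ EX k d F → S ∉ HH k d F := by
      intro S hS h
      exact hS (by unfold EX; exact mem_union_left _ h)
    have hex : ∀ S : Finset (Fin n), ∃ f : Fin n, #S = k → S ∉ EX k d F →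
        ∃ c, Str k d F S f c := by
      intro S
      by_cases h : #S = k ∧ S ∉ EX k d F
      · obtain ⟨f, c, hfc⟩ := (hSRC n k d F hk hF.1 S h.1).2 h.2
        exact ⟨f, fun _ _ => ⟨c, hfc⟩⟩
      · exact ⟨Classical.arbitrary _, fun h1 h2 => (h ⟨h1, h2⟩).elim⟩
    choose f hf using hex
    obtain ⟨T, v₁, hv₁, hTV, hT1, hT2⟩ := hTOP n k (by omega) V f (by omega)
      (fun S hS hSV => by
        obtain ⟨c, hc⟩ := hf S hS (hVE S hSV)
        exact hc.1)
      (fun S S' hS hS' hSV hSV' hint h1 h2 => by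
        obtain ⟨c, hc⟩ := hf S hS (hVE S hSV)
        obtain ⟨c', hc'⟩ := hf S' hS' (hVE S' hSV')
        exact (hRUL n k d F hk hF.1 S S' hS hS' (hEH S (hVE S hSV)) (by omega) _ _ c c' hc hc').1
          h1 h2)
    have hmeet : ∀ S : Finset (Fin n), v₁ ∈ S → ¬ Disjoint S V := fun S h hd =>
      Finset.disjoint_left.1 hd h hv₁
    obtain ⟨c, hc, hcS⟩ := hCENA n k d F hk hF.1 T v₁ (fun S hS hST hvS => by
      refine ⟨hEH S (hVE S (hmeet S hvS)), ?_⟩
      obtain ⟨c, hc⟩ := hf S hS (hVE S (hmeet S hvS))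
      rw [hT2 S hS hST hvS] at hc
      exact ⟨c, hc⟩)
    have hB := hCENB n k d F hk hF T V v₁ hv₁ hTV hVc c hc hcS
    have hCc := hCENC n k d F hk hF T V hTV hVc (fun S hS hSV hST => by
      obtain ⟨c, hc⟩ := hf S hS (hVE S hSV)
      exact ⟨f S, hT1 S hS hSV hST, c, hc⟩)
    obtain ⟨F₁, hF₁⟩ : ∃ F₁ : Finset (Fin n → ℤ), F₁ = F.filter (fun v => Disjoint (supp v) T ∧
      #((supp v).filter (fun i => v i ≠ c i)) = d + 1) := ⟨_, rfl⟩
    have hsub : F₁ ⊆ F := by rw [hF₁]; exact filter_subset _ _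
    obtain ⟨F', hF', hcard⟩ := hCON n k d hk T c hc F₁
      ⟨fun v hv => hF.1 v (hsub hv), fun u hu v hv => hF.2 u (hsub hu) v (hsub hv)⟩
      (fun v hv => by
        rw [hF₁] at hv
        exact (mem_filter.1 hv).2)
    refine ⟨F', hF', le_trans ?_ hcard⟩
    rw [card_fibsum F hF.1]
    obtain ⟨P, hP⟩ : ∃ P, P = powersetCard k (univ : Finset (Fin n)) := ⟨_, rfl⟩
    rw [← hP, ← sum_filter_add_sum_filter_not P (fun S => ¬ Disjoint S T)]
    have e1 : ∑ S ∈ P.filter (fun S => ¬ Disjoint S T), #(fib F S) ≤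
        2 * BB (k - 1) d * #(P.filter (fun S => ¬ Disjoint S T)) := by
      rw [mul_comm, ← smul_eq_mul]
      refine sum_le_card_nsmul _ _ _ fun S hS => ?_
      rw [mem_filter, hP] at hS
      exact hCc S (mem_powersetCard.1 hS.1).2 hS.2
    have e2 : ∀ S ∈ P.filter (fun S => Disjoint S T), #(fib F S) ≤ BB k d + #(fib F₁ S) := by
      intro S hS
      rw [mem_filter, hP] at hS
      have hSk := (mem_powersetCard.1 hS.1).2
      obtain ⟨G, hG, hGc⟩ := hCNT n d S ∅ c hc (empty_subset _)
      rw [card_empty, pow_zero, one_mul, sdiff_empty, hSk] at hGc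
      rw [← hGc]
      refine le_trans (card_le_card (t := G ∪ fib F₁ S) ?_) (card_union_le _ _)
      intro v hv
      unfold SJ.fib at hv
      rw [mem_filter] at hv
      have hvS : Disjoint (supp v) T := by rw [hv.2]; exact hS.2
      have h1 := hB v hv.1 hvS
      rcases Nat.lt_or_ge d #((supp v).filter (fun i => v i ≠ c i)) with h | h
      · refine mem_union_right _ ?_
        unfold SJ.fib
        rw [mem_filter, hF₁, mem_filter]
        exact ⟨⟨hv.1, hvS, by omega⟩, hv.2⟩
      · refine mem_union_left _ ((hG v).2 ⟨?_, hv.2, ?_⟩)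
        · rw [hSk]
          exact hF.1 v hv.1
        · rw [sdiff_empty, ← hv.2]
          exact h
    have e3 : ∑ S ∈ P.filter (fun S => ¬ ¬ Disjoint S T), #(fib F S) ≤
        BB k d * #(P.filter (fun S => Disjoint S T)) + #F₁ := by
      have e4 : P.filter (fun S => ¬ ¬ Disjoint S T) = P.filter (fun S => Disjoint S T) := by
        ext S
        simp
      rw [e4]
      refine le_trans (sum_le_sum e2) ?_
      rw [sum_add_distrib, sum_const, smul_eq_mul, mul_comm]
      have e5 : ∑ S ∈ P.filter (fun S => Disjoint S T), #(fib F₁ S) ≤ #F₁ := by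
        rw [card_fibsum F₁ (k := k) (fun v hv => hF.1 v (hsub hv)), ← hP]
        exact sum_le_sum_of_subset (filter_subset _ _)
      omega
    omega
  · obtain ⟨F', hF', hcard⟩ := hCON n k d hk univ (fun _ => 1) (fun _ => Or.inl rfl) ∅
      ⟨by simp, by simp⟩ (by simp)
    refine ⟨F', hF', le_trans (le_trans (not_le.1 hbig).le ?_) hcard⟩
    have e : (powersetCard k (univ : Finset (Fin n))).filter (fun S => ¬ Disjoint S univ) =
        powersetCard k univ := by
      refine filter_true_of_mem fun S hS hd => ?_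
      have h0 : S = ∅ := by
        have := Finset.disjoint_self_iff_empty S |>.1 (Finset.disjoint_of_subset_right (subset_univ _) hd)
        exact this
      have := (mem_powersetCard.1 hS).2
      rw [h0, card_empty] at this
      omega
    rw [e, card_powersetCard, card_univ, Fintype.card_fin]
    omega

end SG
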