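import Pool.Agent.Helper86.SG.Defs

set_option autoImplicit false

open Finset

namespace Pool.Agent.Helper86.SG

/-- `V_{n,k}`: the vectors in `{-1,0,1}^n` with exactly `k` nonzero entries -/
abbrev Vec (n k : ℕ) : Type :=
  {v : Fin n → ℤ // (∀ i, v i = -1 ∨ v i = 0 ∨ v i = 1) ∧ #{i | v i ≠ 0} = k}

/-- the dot product -/
def dot {n : ℕ} (u v : Fin n → ℤ) : ℤ := ∑ i, u i * v i

/-- the graph `J_±(n,k,t)`: two different vectors are adjacent iff their dot product is `t` -/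
def J (n k : ℕ) (t : ℤ) : SimpleGraph (Vec n k) where
  Adj u v := u ≠ v ∧ dot u.1 v.1 = t
  symm := ⟨fun u v h => ⟨h.1.symm, by rw [← h.2]; exact sum_congr rfl fun i _ => mul_comm _ _⟩⟩
  loopless := ⟨fun _ h => h.1 rfl⟩

/-- the graph `K_±(n,k,t)`: two different vectors are adjacent iff their dot product is at most `t` -/
def K (n k : ℕ) (t : ℤ) : SimpleGraph (Vec n k) where
  Adj u v := u ≠ v ∧ dot u.1 v.1 ≤ t
  symm := ⟨fun u v h =>
    ⟨h.1.symm, le_trans (le_of_eq (sum_congr rfl fun i _ => mul_comm _ _)) h.2⟩⟩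
  loopless := ⟨fun _ h => h.1 rfl⟩

instance (n k : ℕ) : Finite (Vec n k) := by
  have : Finite {v : Fin n → ℤ // ∀ i, v i ∈ (({-1, 0, 1} : Finset ℤ) : Set ℤ)} := by
    have h : Finite (Fin n → (({-1, 0, 1} : Finset ℤ) : Set ℤ)) := inferInstance
    refine Finite.of_injective (β := Fin n → (({-1, 0, 1} : Finset ℤ) : Set ℤ))
      (fun v i => ⟨v.1 i, v.2 i⟩) ?_
    intro v w hvw
    apply Subtype.ext
    funext i
    exact congrArg Subtype.val (congrFun hvw i)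
  refine Finite.of_injective
    (β := {v : Fin n → ℤ // ∀ i, v i ∈ (({-1, 0, 1} : Finset ℤ) : Set ℤ)})
    (fun v => ⟨v.1, fun i => by simpa using v.2.1 i⟩) ?_
  intro v w hvw
  apply Subtype.ext
  exact congrArg (fun z => z.1) hvw

/-- from families to independence numbers -/
theorem fin (k : ℕ) (t : ℤ)
    (main : (k : ℤ) ≤ -t ∨ ∃ n₀ : ℕ, ∀ n : ℕ, n₀ ≤ n → ∀ F : Finset (Fin n → ℤ),
      ((∀ v ∈ F, SJ.IsV n k v) ∧ ∀ u ∈ F, ∀ v ∈ F, u ≠ v → SJ.dot u v ≠ t) →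
      ∃ F' : Finset (Fin n → ℤ), ((∀ v ∈ F', SJ.IsV n k v) ∧
        ∀ u ∈ F', ∀ v ∈ F', u ≠ v → ¬ SJ.dot u v ≤ t) ∧ #F ≤ #F') :
    ∃ n₀ : ℕ, ∀ n : ℕ, n₀ ≤ n → (J n k t).indepNum = (K n k t).indepNum := by
  classical
  have hle : ∀ n, (K n k t).indepNum ≤ (J n k t).indepNum := by
    intro n
    obtain ⟨s, hs⟩ := (K n k t).exists_isNIndepSet_indepNum
    rw [SimpleGraph.isNIndepSet_iff] at hs
    rw [← hs.2]
    apply SimpleGraph.IsIndepSet.card_le_indepNum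
    intro u hu v hv huv hadj
    exact hs.1 hu hv huv ⟨hadj.1, le_of_eq hadj.2⟩
  have main' : ∃ n₀ : ℕ, ∀ n : ℕ, n₀ ≤ n → ∀ F : Finset (Fin n → ℤ),
      ((∀ v ∈ F, SJ.IsV n k v) ∧ ∀ u ∈ F, ∀ v ∈ F, u ≠ v → SJ.dot u v ≠ t) →
      ∃ F' : Finset (Fin n → ℤ), ((∀ v ∈ F', SJ.IsV n k v) ∧
        ∀ u ∈ F', ∀ v ∈ F', u ≠ v → ¬ SJ.dot u v ≤ t) ∧ #F ≤ #F' := by
    rcases main with hk | h
    · refine ⟨0, fun n _ F hF => ⟨F, ⟨hF.1, fun u hu v hv huv hle => ?_⟩, le_rfl⟩⟩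
      have hne := hF.2 u hu v hv huv
      have hu1 := hF.1 u hu
      have hv1 := hF.1 v hv
      -- the dot product is at least `-k`
      have h1 : -(k : ℤ) ≤ SJ.dot u v := by
        have h2 : SJ.dot u v = ∑ i ∈ SJ.supp u, u i * v i := by
          unfold SJ.dot SJ.supp
          rw [sum_filter]
          refine sum_congr rfl fun i _ => ?_
          by_cases h : u i = 0 <;> simp [h]
        rw [h2, ← hu1.2]
        have h3 : ∑ i ∈ SJ.supp u, (-1 : ℤ) ≤ ∑ i ∈ SJ.supp u, u i * v i := by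
          apply sum_le_sum
          intro i _
          rcases hu1.1 i with h | h | h <;> rcases hv1.1 i with h' | h' | h' <;> simp [h, h']
        simpa using h3
      exact hne (by omega)
    · exact h
  obtain ⟨n₀, h0⟩ := main'
  refine ⟨n₀, fun n hn => le_antisymm ?_ (hle n)⟩
  obtain ⟨s, hs⟩ := (J n k t).exists_isNIndepSet_indepNum
  rw [SimpleGraph.isNIndepSet_iff] at hs
  obtain ⟨F', hF', hc⟩ := h0 n hn (s.map ⟨Subtype.val, Subtype.val_injective⟩) (by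
    refine ⟨fun v hv => ?_, fun u hu v hv huv hd => ?_⟩
    · obtain ⟨w, _, rfl⟩ := mem_map.1 hv
      exact w.2
    · obtain ⟨a, ha, rfl⟩ := mem_map.1 hu
      obtain ⟨b, hb, rfl⟩ := mem_map.1 hv
      have hab : a ≠ b := fun h => huv (by rw [h])
      exact hs.1 ha hb hab ⟨hab, hd⟩)
  rw [card_map, hs.2] at hc
  refine hc.trans ?_
  have hcard : #(F'.subtype (fun v => (∀ i, v i = -1 ∨ v i = 0 ∨ v i = 1) ∧ #{i | v i ≠ 0} = k))
      = #F' := by
    rw [card_subtype, filter_true_of_mem]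
    intro v hv
    exact hF'.1 v hv
  rw [← hcard]
  apply SimpleGraph.IsIndepSet.card_le_indepNum (G := K n k t)
  intro u hu v hv huv hadj
  have hu' := (mem_subtype.1 (mem_coe.1 hu))
  have hv' := (mem_subtype.1 (mem_coe.1 hv))
  exact hF'.2 u.1 hu' v.1 hv' (fun h => huv (Subtype.ext h)) hadj.2

/-- even `t` -/
theorem finEven (hg : _root_.SG.GOALStm) (k d : ℕ) : ∃ n₀ : ℕ, ∀ n : ℕ, n₀ ≤ n →
    (J n k (-(2 * (d : ℤ) + 2))).indepNum = (K n k (-(2 * (d : ℤ) + 2))).indepNum := by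
  apply fin
  rcases Nat.lt_or_ge (2 * d + 2) k with h | h
  · right
    exact hg k d h
  · left
    have : (k : ℤ) ≤ 2 * (d : ℤ) + 2 := by exact_mod_cast h
    omega

end Pool.Agent.Helper86.SG
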